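import Pool.Agent.Helper79.PS.LemmaR2

/-!
# Lemma R: a rational function of degree at least two preserves no differential
-/

set_option autoImplicit false

open Finset Polynomial

namespace Pool.Agent.Helper79.PS

open Pool.Agent.Helper33.PS Pool.Agent.Helper93.RatODE

section unity

lemma re_inv_one_sub {z : ℂ} (h1 : ‖z‖ = 1) (h2 : z ≠ 1) : (1 / (1 - z)).re = 1 / 2 := by
  have h3 : z.re * z.re + z.im * z.im = 1 := by
    have : Complex.normSq z = 1 := by rw [Complex.normSq_eq_norm_sq, h1]; norm_num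
    rwa [Complex.normSq_apply] at this
  have h4 : z.re ≠ 1 := by
    intro h5
    apply h2
    apply Complex.ext
    · simpa using h5
    · rw [h5] at h3
      have : z.im * z.im = 0 := by linarith
      simpa using mul_self_eq_zero.mp this
  have h5 : (1 - z.re) ≠ 0 := by
    intro h; apply h4; linarith
  rw [one_div, Complex.inv_re, Complex.normSq_apply]
  simp only [Complex.sub_re, Complex.one_re, Complex.sub_im, Complex.one_im, zero_sub]
  have h6 : (1 - z.re) * (1 - z.re) + -z.im * -z.im = 2 * (1 - z.re) := by linarith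
  rw [h6]
  field_simp

lemma card_of_unity {k : Type*} [Field k] [CharZero k] (s : Finset k) (f : k → k)
    (h1 : ∀ i ∈ s, f i ≠ 1) (h2 : ∀ i ∈ s, ∃ ν : ℕ, 1 ≤ ν ∧ f i ^ ν = 1)
    (hsum : ∑ i ∈ s, 1 / (1 - f i) = 1) : s.card = 2 := by
  let L := algebraicClosure ℚ k
  have halg : ∀ i ∈ s, f i ∈ L := by
    intro i hi
    obtain ⟨ν, h3, h4⟩ := h2 i hi
    rw [mem_algebraicClosure_iff]
    refine ⟨X ^ ν - 1, ?_, ?_⟩
    · exact (monic_X_pow_sub_C (1 : ℚ) (by omega)).ne_zero
    · simp [h4]
  classical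
  let g : k → L := fun i => if h : i ∈ s then ⟨f i, halg i h⟩ else 0
  have hg : ∀ i ∈ s, (g i : k) = f i := by
    intro i hi; simp only [g, dif_pos hi]
  have hsumL : ∑ i ∈ s, 1 / (1 - g i) = 1 := by
    apply Subtype.ext
    have : ((∑ i ∈ s, 1 / (1 - g i) : L) : k) = ∑ i ∈ s, 1 / (1 - f i) := by
      push_cast
      apply sum_congr rfl
      intro i hi
      rw [hg i hi]
    rw [this, hsum]
    rfl
  have : Algebra.IsAlgebraic ℚ L := algebraicClosure.isAlgebraic ℚ k
  let φ : L →ₐ[ℚ] ℂ := IsAlgClosed.lift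
  have hsumC := congrArg φ hsumL
  rw [map_sum, map_one] at hsumC
  have hsumR := congrArg Complex.re hsumC
  rw [Complex.re_sum, Complex.one_re] at hsumR
  have hterm : ∀ i ∈ s, (φ (1 / (1 - g i))).re = 1 / 2 := by
    intro i hi
    rw [map_div₀, map_sub, map_one]
    apply re_inv_one_sub
    · obtain ⟨ν, h3, h4⟩ := h2 i hi
      have h5 : g i ^ ν = 1 := by
        apply Subtype.ext
        push_cast
        rw [hg i hi, h4]
      have h6 : φ (g i) ^ ν = 1 := by rw [← map_pow, h5, map_one]
      exact Complex.norm_eq_one_of_pow_eq_one h6 (by omega)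
    · intro h5
      rw [← map_one φ] at h5
      have h6 := φ.injective h5
      apply h1 i hi
      rw [← hg i hi, h6]
      rfl
  rw [sum_congr rfl hterm, sum_const, nsmul_eq_mul] at hsumR
  have : (s.card : ℝ) = 2 := by linarith
  exact_mod_cast this

end unity

section final

variable {K : Type*} [Field K] [IsAlgClosed K] [CharZero K]

/-- the fixed points have order less than `l` -/
lemma no_big_fixed {d l n : ℕ} (hd : 2 ≤ d) (hl : 1 ≤ l) {A B U V : K[X]} (hAB : IsRat A B d)
    (hBd : B.coeff d ≠ 0) (hU0 : U ≠ 0) (hV0 : V ≠ 0)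
    (hU : U.natDegree ≤ n + 2 * l) (hV : V.natDegree ≤ n)
    (hinf : U.eval (A.coeff d / B.coeff d) ≠ 0)
    (h : (hev U (n + 2 * l) A B : K[X]) * V = wr A B ^ l * U * hev V n A B)
    {p : K} (hp : A.eval p = p * B.eval p)
    (hbig : V.rootMultiplicity p + l ≤ U.rootMultiplicity p) : False := by
  classical
  have hBroot : ∀ x q : K, (A - C x * B).eval q = 0 → B.eval q ≠ 0 ∧ A.eval q = x * B.eval q := by
    intro x q hq
    have h1 : A.eval q = x * B.eval q := by
      rw [eval_sub, eval_mul, eval_C] at hq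
      linear_combination hq
    refine ⟨?_, h1⟩
    intro h2
    obtain ⟨a, b, hab⟩ := hAB.cop
    have h3 := congrArg (eval q) hab
    rw [eval_add, eval_mul, eval_mul, h1, h2, eval_one] at h3
    simp at h3
  have hfac : ∀ x q : K, (A - C x * B).eval q = 0 → ∃ (e : ℕ) (g : K[X]),
      A - C x * B = (X - C q) ^ (e + 1) * g ∧ g.eval q ≠ 0 ∧ e + 1 = (A - C x * B).rootMultiplicity q := by
    intro x q hq
    have h0 : A - C x * B ≠ 0 := sub_ne_zero_of_isRat (by omega) hAB x
    obtain ⟨g, h1, h2⟩ := exists_factor h0 q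
    have h3 : 0 < (A - C x * B).rootMultiplicity q := (rootMultiplicity_pos h0).mpr hq
    refine ⟨(A - C x * B).rootMultiplicity q - 1, g, ?_, h2, by omega⟩
    rw [Nat.sub_add_cancel h3]
    exact h1
  have hback : ∀ x q : K, V.rootMultiplicity x + l ≤ U.rootMultiplicity x →
      (A - C x * B).eval q = 0 → V.rootMultiplicity q + l ≤ U.rootMultiplicity q := by
    intro x q hx hq
    obtain ⟨h1, h2⟩ := hBroot x q hq
    obtain ⟨e, g, h3, h4, -⟩ := hfac x q hq
    obtain ⟨Ux, h5, h6⟩ := exists_factor hU0 x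
    obtain ⟨Vx, h7, h8⟩ := exists_factor hV0 x
    obtain ⟨Uq, h9, h10⟩ := exists_factor hU0 q
    obtain ⟨Vq, h11, h12⟩ := exists_factor hV0 q
    obtain ⟨-, -, h13, -⟩ := local_rel hU0 hV0 hU hV (by omega : 1 ≤ d) h h1 h2 h3 h4 h5 h7 h6 h8 h9 h11 h10 h12
    have h14 : (e + 1) * (V.rootMultiplicity x + l) ≤ (e + 1) * U.rootMultiplicity x :=
      Nat.mul_le_mul_left _ hx
    have h15 : (e + 1) * (V.rootMultiplicity x + l) = (e + 1) * V.rootMultiplicity x + (e * l + l) := by
      ring
    omega
  -- the finite set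
  set S : Finset K := U.roots.toFinset.filter
    (fun x => V.rootMultiplicity x + l ≤ U.rootMultiplicity x) with hS
  have hmem : ∀ x, x ∈ S ↔ V.rootMultiplicity x + l ≤ U.rootMultiplicity x := by
    intro x
    rw [hS, mem_filter, Multiset.mem_toFinset, mem_roots hU0]
    constructor
    · exact fun h => h.2
    · intro h
      exact ⟨(rootMultiplicity_pos hU0).mp (by omega), h⟩
  have hdeg : ∀ x ∈ S, (A - C x * B).natDegree = d := by
    intro x hx
    have h1 : (A - C x * B).natDegree ≤ d :=
      (natDegree_sub_le _ _).trans (max_le hAB.dA ((natDegree_C_mul_le _ _).trans hAB.dB))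
    refine le_antisymm h1 (le_natDegree_of_ne_zero ?_)
    rw [coeff_sub, coeff_C_mul]
    intro h2
    apply hinf
    have h3 : A.coeff d / B.coeff d = x := by
      rw [div_eq_iff hBd]; linear_combination h2
    rw [h3]
    exact (rootMultiplicity_pos hU0).mp (by have := (hmem x).mp hx; omega)
  have hex : ∀ x : S, ∃ y : S, (A - C (x : K) * B).eval (y : K) = 0 := by
    intro x
    obtain ⟨q, hq⟩ := IsAlgClosed.exists_root (A - C (x : K) * B) (by
      intro h1
      have := natDegree_eq_zero_iff_degree_le_zero.mpr h1.le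
      rw [hdeg x x.2] at this
      omega)
    exact ⟨⟨q, (hmem q).mpr (hback x q ((hmem x).mp x.2) hq)⟩, hq⟩
  choose r hr using hex
  have hinj : Function.Injective r := by
    intro x x' hxx
    have h1 := hBroot x (r x) (hr x)
    have h2 := hBroot x' (r x') (hr x')
    rw [← hxx] at h2
    apply Subtype.ext
    exact mul_right_cancel₀ h1.1 (h1.2.symm.trans h2.2)
  have hsurj : Function.Surjective r := Finite.injective_iff_surjective.mp hinj
  have hpS : p ∈ S := (hmem p).mpr hbig
  have hp0 : (A - C p * B).eval p = 0 := by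
    rw [eval_sub, eval_mul, eval_C, hp, sub_self]
  have huniq : ∀ q, (A - C p * B).eval q = 0 → q = p := by
    have key : ∀ q, (A - C p * B).eval q = 0 → q = r ⟨p, hpS⟩ := by
      intro q hq
      have hqS : q ∈ S := (hmem q).mpr (hback p q hbig hq)
      obtain ⟨x', hx'⟩ := hsurj ⟨q, hqS⟩
      have h1 := hBroot x' (r x') (hr x')
      rw [hx'] at h1
      have h2 := hBroot p q hq
      have h3 : (x' : K) = p := mul_right_cancel₀ h1.1 (h1.2.symm.trans h2.2)
      have h4 : x' = ⟨p, hpS⟩ := Subtype.ext h3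
      rw [← h4, hx']
    intro q hq
    rw [key q hq, ← key p hp0]
  have hmult : (A - C p * B).rootMultiplicity p = d := by
    rw [← count_roots]
    have h1 : Multiset.card (A - C p * B).roots = (A - C p * B).natDegree :=
      splits_iff_card_roots.mp (IsAlgClosed.splits _)
    rw [Multiset.count_eq_card.mpr, h1, hdeg p hpS]
    intro x hx
    exact (huniq x (mem_roots'.mp hx).2).symm
  obtain ⟨h1, h2⟩ := hBroot p p hp0
  obtain ⟨e, g, h3, h4, h16⟩ := hfac p p hp0
  obtain ⟨Ux, h5, h6⟩ := exists_factor hU0 p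
  obtain ⟨Vx, h7, h8⟩ := exists_factor hV0 p
  obtain ⟨hm, hm', h13, h14⟩ := local_rel hU0 hV0 hU hV (by omega : 1 ≤ d) h h1 h2 h3 h4 h5 h7 h6 h8 h5 h7 h6 h8
  rw [hmult] at h16
  have h17 : U.rootMultiplicity p = V.rootMultiplicity p + l := by
    have : e * U.rootMultiplicity p = e * (V.rootMultiplicity p + l) := by
      have e1 : (e + 1) * U.rootMultiplicity p = e * U.rootMultiplicity p + U.rootMultiplicity p := by ring
      have e2 : (e + 1) * V.rootMultiplicity p = e * V.rootMultiplicity p + V.rootMultiplicity p := by ring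
      have e3 : e * (V.rootMultiplicity p + l) = e * V.rootMultiplicity p + e * l := by ring
      omega
    exact Nat.eq_of_mul_eq_mul_left (by omega) this
  generalize hmU : U.rootMultiplicity p = m at *
  generalize hmV : V.rootMultiplicity p = m' at *
  subst h17
  have h18 : n + 2 * l - (m' + l) = (n - m') + l := by omega
  rw [h18] at h14
  have h19 : ((e : K) + 1) ^ l = 1 := by
    have h20 : (g.eval p ^ (m' + l) * B.eval p ^ (n - m' + l) * Ux.eval p * Vx.eval p) ≠ 0 :=
      mul_ne_zero (mul_ne_zero (mul_ne_zero (pow_ne_zero _ h4) (pow_ne_zero _ h1)) h6) h8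
    apply mul_right_cancel₀ h20
    rw [one_mul]
    conv_rhs => rw [h14, mul_pow, mul_pow]
    ring
  have h21 : ((e + 1 : ℕ) : K) ^ l = 1 := by push_cast; exact h19
  have h22 : (e + 1) ^ l = 1 := by exact_mod_cast h21
  rw [h16] at h22
  have h23 : 1 < d ^ l := Nat.one_lt_pow (by omega) (by omega)
  omega

/-- **M6a LEMMA R** -/
theorem lemmaR {k : Type*} [Field k] [IsAlgClosed k] [CharZero k] {d l : ℕ} (hd : 2 ≤ d) (hl : 1 ≤ l)
    {A B : k[X]} (hAB : IsRat A B d) (n : ℕ) (U V : k[X]) (hU : U.natDegree ≤ n)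
    (hV : V.natDegree ≤ n) (hV0 : V ≠ 0)
    (h : (hev U n A B : k[X]) * V * B ^ (2 * l) =
      (derivative A * B - A * derivative B) ^ l * U * hev V n A B) : U = 0 := by
  classical
  by_contra hU0'
  obtain ⟨A', B', U', V', hAB', hBd, hU'd, hU'c, hV'd, hV'c, hinf, h'⟩ :=
    normalise hd hAB hU hV hV0 hU0' h
  clear h hU hV hV0 hU0' hAB
  have hU0 : U' ≠ 0 := by rintro rfl; simp at hU'c
  have hV0 : V' ≠ 0 := by rintro rfl; simp at hV'c
  have hU : U'.natDegree ≤ n + 2 * l := hU'd.le
  have hV : V'.natDegree ≤ n := hV'd.le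
  have hfix : X * B' - A' ≠ 0 := fix_ne_zero hd hAB'
  set R := X * B' - A' with hR
  -- the data at the fixed points
  have hdata : ∀ p : k, R.eval p = 0 → ∃ lam : k, lam ≠ 1 ∧ (∃ ν : ℕ, 1 ≤ ν ∧ lam ^ ν = 1) ∧
      (derivative R).eval p = B'.eval p * (1 - lam) ∧ B'.eval p ≠ 0 := by
    intro p hp
    have h2 : A'.eval p = p * B'.eval p := by
      rw [hR, eval_sub, eval_mul, eval_X] at hp
      linear_combination -hp
    have h1 : B'.eval p ≠ 0 := by
      intro h2'
      obtain ⟨a, b, hab⟩ := hAB'.cop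
      have h3 := congrArg (eval p) hab
      rw [eval_add, eval_mul, eval_mul, h2, h2', eval_one] at h3
      simp at h3
    have hp0 : (A' - C p * B').eval p = 0 := by
      rw [eval_sub, eval_mul, eval_C, h2, sub_self]
    have h0 : A' - C p * B' ≠ 0 := sub_ne_zero_of_isRat (by omega) hAB' p
    obtain ⟨g, h3, h4⟩ := exists_factor h0 p
    have h9 : 0 < (A' - C p * B').rootMultiplicity p := (rootMultiplicity_pos h0).mpr hp0
    obtain ⟨e, he⟩ : ∃ e, (A' - C p * B').rootMultiplicity p = e + 1 := ⟨_, (Nat.sub_add_cancel h9).symm⟩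
    rw [he] at h3
    obtain ⟨Ux, h5, h6⟩ := exists_factor hU0 p
    obtain ⟨Vx, h7, h8⟩ := exists_factor hV0 p
    obtain ⟨hm, hm', h13, h14⟩ := local_rel hU0 hV0 hU hV (by omega : 1 ≤ d) h' h1 h2 h3 h4 h5 h7 h6 h8 h5 h7 h6 h8
    have hsmall : U'.rootMultiplicity p < V'.rootMultiplicity p + l := by
      by_contra hcon
      push Not at hcon
      exact no_big_fixed hd hl hAB' hBd hU0 hV0 hU hV hinf h' h2 hcon
    generalize hmU : U'.rootMultiplicity p = m at *
    generalize hmV : V'.rootMultiplicity p = m' at *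
    have he0 : e = 0 := by
      by_contra hne
      have : e * m < e * (m' + l) := Nat.mul_lt_mul_of_pos_left hsmall (by omega)
      have e1 : (e + 1) * m = e * m + m := by ring
      have e2 : (e + 1) * m' = e * m' + m' := by ring
      have e3 : e * (m' + l) = e * m' + e * l := by ring
      omega
    subst he0
    rw [zero_add, pow_one] at h3
    have hlam : g.eval p ≠ B'.eval p := by
      intro hgp
      exact mult_one_impossible hU0 hV0 hU hV (by omega : 1 ≤ d) h' hfix h1 h3 hgp h5 h7 h6 h8 hsmall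
    refine ⟨g.eval p / B'.eval p, ?_, ⟨m' + l - m, by omega, ?_⟩, ?_, h1⟩
    · intro h15
      exact hlam ((div_eq_one_iff_eq h1).mp h15)
    · rw [div_pow, div_eq_one_iff_eq (pow_ne_zero _ h1)]
      obtain ⟨ν, hν⟩ : ∃ ν, m' + l = m + ν := ⟨m' + l - m, by omega⟩
      have e1 : m' + l - m = ν := by omega
      have e2 : n + 2 * l - m = (n - m' + l) + ν := by omega
      rw [e1]
      rw [e2] at h14
      have h20 : (g.eval p ^ m * B'.eval p ^ (n - m' + l) * Ux.eval p * Vx.eval p) ≠ 0 :=
        mul_ne_zero (mul_ne_zero (mul_ne_zero (pow_ne_zero _ h4) (pow_ne_zero _ h1)) h6) h8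
      apply mul_right_cancel₀ h20
      calc g.eval p ^ ν * (g.eval p ^ m * B'.eval p ^ (n - m' + l) * Ux.eval p * Vx.eval p)
          = g.eval p ^ (m + ν) * B'.eval p ^ (n - m' + l) * Ux.eval p * Vx.eval p := by ring
        _ = g.eval p ^ (m' + l) * B'.eval p ^ (n - m' + l) * Ux.eval p * Vx.eval p := by rw [hν]
        _ = ((((0 : ℕ) : k) + 1) * eval p g * eval p B') ^ l * eval p Ux *
              (eval p g ^ m' * eval p B' ^ (n - m') * eval p Vx) := by
            rw [Nat.cast_zero, zero_add, one_mul]; ring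
        _ = _ := by rw [← h14]; ring
    · have hRp : R = (X - C p) * (B' - g) := by
        have : A' = (X - C p) * g + C p * B' := by rw [← h3]; ring
        rw [hR, this]; ring
      rw [hRp, derivative_mul]
      simp
      field_simp
  -- the fixed points
  have hRd : R.natDegree ≤ d + 1 := by
    refine (natDegree_sub_le _ _).trans (max_le ?_ (hAB'.dA.trans (by omega)))
    rw [natDegree_X_mul (by rintro rfl; simp at hBd)]
    have := hAB'.dB
    omega
  have hRc : R.coeff (d + 1) = B'.coeff d := by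
    rw [hR, coeff_sub, coeff_X_mul, coeff_eq_zero_of_natDegree_lt (p := A') (by
      have := hAB'.dA; omega), sub_zero]
  have hRd' : R.natDegree = d + 1 :=
    le_antisymm hRd (le_natDegree_of_ne_zero (by rw [hRc]; exact hBd))
  have hRlc : R.leadingCoeff = B'.coeff d := by rw [leadingCoeff, hRd', hRc]
  have hnodup : R.roots.Nodup := by
    rw [Multiset.nodup_iff_count_le_one]
    intro p
    rw [count_roots]
    by_contra hcon
    push Not at hcon
    obtain ⟨h1, h2⟩ := (one_lt_rootMultiplicity_iff_isRoot hfix).mp hcon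
    obtain ⟨lam, h3, -, h4, h5⟩ := hdata p h1
    rw [IsRoot.def, h4] at h2
    rcases mul_eq_zero.mp h2 with h6 | h6
    · exact h5 h6
    · exact h3 (sub_eq_zero.mp h6).symm
  have hcard : Multiset.card R.roots = d + 1 := by
    rw [← hRd']
    exact splits_iff_card_roots.mp (IsAlgClosed.splits _)
  set s := R.roots.toFinset with hs
  have hscard : s.card = d + 1 := by
    rw [hs, Multiset.toFinset_card_of_nodup hnodup, hcard]
  have hprod : R = C (B'.coeff d) * Lagrange.nodal s id := by
    conv_lhs => rw [← C_leadingCoeff_mul_prod_multiset_X_sub_C (hcard.trans hRd'.symm)]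
    rw [hRlc, Lagrange.nodal_eq]
    congr 1
    rw [hs, Finset.prod, Multiset.toFinset_val, hnodup.dedup]
    rfl
  have hder : ∀ i ∈ s, (derivative R).eval i = B'.coeff d * ∏ j ∈ s.erase i, (i - j) := by
    intro i hi
    rw [hprod, derivative_C_mul, eval_mul, eval_C]
    congr 1
    have := Lagrange.eval_nodal_derivative_eval_node_eq (s := s) (v := (id : k → k)) hi
    rw [Lagrange.eval_nodal] at this
    exact this
  have hsroot : ∀ i ∈ s, R.eval i = 0 := by
    intro i hi
    rw [hs, Multiset.mem_toFinset] at hi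
    exact (mem_roots'.mp hi).2
  have hLag := Lagrange.coeff_eq_sum (s := s) (v := (id : k → k)) (Set.injOn_id _) (P := B') (by
    rw [hscard]
    refine lt_of_le_of_lt (degree_le_of_natDegree_le hAB'.dB) ?_
    exact_mod_cast Nat.lt_succ_self d)
  rw [hscard, add_tsub_cancel_right] at hLag
  choose! lam hlam1 hlam2 hlam3 hlam4 using hdata
  have hsum : ∑ i ∈ s, 1 / (1 - lam i) = 1 := by
    apply mul_left_cancel₀ hBd
    rw [mul_one]
    conv_rhs => rw [hLag]
    rw [mul_sum]
    apply sum_congr rfl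
    intro i hi
    have e1 := hder i hi
    rw [hlam3 i (hsroot i hi)] at e1
    have e2 := hlam4 i (hsroot i hi)
    have e3 : (1 - lam i) ≠ 0 := fun h0 => hlam1 i (hsroot i hi) (sub_eq_zero.mp h0).symm
    have e4 : ∏ j ∈ s.erase i, (i - j) ≠ 0 := by
      intro h0
      rw [h0, mul_zero] at e1
      exact mul_ne_zero e2 e3 e1
    simp only [id]
    rw [mul_one_div, div_eq_div_iff e3 e4]
    linear_combination -e1
  have hfin := card_of_unity s lam (fun i hi => hlam1 i (hsroot i hi))
    (fun i hi => hlam2 i (hsroot i hi)) hsum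
  omega

end final

end Pool.Agent.Helper79.PS
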