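import Pool.Agent.Helper33.PS.Defs
import Pool.Agent.Helper93.RatHev

/-!
# Lemma R, part 1: multiplicativity of `hev`, the Wronskian and change of coordinates
-/

set_option autoImplicit false

open Finset Polynomial

namespace Pool.Agent.Helper79.PS

open Pool.Agent.Helper33.PS Pool.Agent.Helper93.RatODE

section basic

variable {K : Type*} [Field K]

lemma hev_mulF {L : Type*} [Field L] [Algebra K L] {P Q : K[X]} {n m : ℕ} (hP : P.natDegree ≤ n)
    (hQ : Q.natDegree ≤ m) (u w : L) : hev (P * Q) (n + m) u w = hev P n u w * hev Q m u w := by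
  by_cases hw : w = 0
  · subst hw
    rw [hev_right_zero, hev_right_zero, hev_right_zero, coeff_mul_add_eq_of_natDegree_le hP hQ,
      map_mul, pow_add]
    ring
  · rw [hev_eq _ _ (natDegree_mul_le_of_le hP hQ) u w hw, hev_eq _ _ hP u w hw,
      hev_eq _ _ hQ u w hw, map_mul, pow_add]
    ring

variable [Infinite K]

lemma hev_mulP {P Q : K[X]} {n m : ℕ} (hP : P.natDegree ≤ n)
    (hQ : Q.natDegree ≤ m) (u w : K[X]) : hev (P * Q) (n + m) u w = hev P n u w * hev Q m u w := by
  apply Polynomial.funext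
  intro y
  rw [eval_mul, hev_eval, hev_eval, hev_eval, hev_mulF hP hQ]

omit [Infinite K] in
lemma hev_oneP (m : ℕ) (u w : K[X]) : hev (1 : K[X]) m u w = w ^ m := by
  unfold hev
  rw [Finset.sum_eq_single 0]
  · simp
  · intro j _ hj
    simp [coeff_one, hj]
  · simp

lemma hev_pad {P : K[X]} {n : ℕ} (m : ℕ) (hP : P.natDegree ≤ n) (u w : K[X]) :
    hev P (n + m) u w = hev P n u w * w ^ m := by
  have := hev_mulP hP (by simp : (1 : K[X]).natDegree ≤ m) u w
  rwa [mul_one, hev_oneP] at this

lemma hev_powP {P : K[X]} {n : ℕ} (l : ℕ) (hP : P.natDegree ≤ n) (u w : K[X]) :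
    hev (P ^ l) (l * n) u w = hev P n u w ^ l := by
  induction l with
  | zero => simp [hev_oneP]
  | succ l ih =>
    rw [pow_succ, pow_succ, add_mul, one_mul, hev_mulP (natDegree_pow_le_of_le l hP) hP, ih]

lemma hev_compP (P : K[X]) (n : ℕ) {U W : K[X]} {q : ℕ} (hU : U.natDegree ≤ q)
    (hW : W.natDegree ≤ q) (u w : K[X]) :
    hev (hev P n U W) (n * q) u w = hev P n (hev U q u w) (hev W q u w) := by
  apply Polynomial.funext
  intro y
  rw [hev_eval, hev_eval, hev_eval, hev_eval, hev_comp P n hU hW]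

omit [Infinite K] in
lemma hev_X_one (P : K[X]) (n : ℕ) (hP : P.natDegree ≤ n) : hev P n X 1 = P := by
  unfold hev
  conv_rhs => rw [as_sum_range' P (n + 1) (by omega)]
  apply sum_congr rfl
  intro j _
  rw [one_pow, mul_one, ← C_eq_algebraMap, C_mul_X_pow_eq_monomial]

omit [Infinite K] in
lemma hev_self (P : K[X]) (n : ℕ) (hP : P.natDegree ≤ n) (B : K[X]) :
    hev P n (B * X) B = B ^ n * P := by
  have := hev_smul_arg P n B X (1 : K[X])
  rw [mul_one] at this
  rw [this, hev_X_one P n hP]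

omit [Infinite K] in
lemma hev_linear (p : K) (u w : K[X]) : hev (X - C p) 1 u w = u - C p * w := by
  unfold hev
  rw [Finset.sum_range_succ, Finset.sum_range_succ, Finset.sum_range_zero]
  simp [coeff_X, coeff_C]
  ring

/-- the Wronskian -/
noncomputable def wr (A B : K[X]) : K[X] := derivative A * B - A * derivative B

omit [Infinite K] in
lemma wr_natDegree {A B : K[X]} {d : ℕ} (hd : 1 ≤ d) (hA : A.natDegree ≤ d) (hB : B.natDegree ≤ d) :
    (wr A B).natDegree ≤ 2 * d - 2 := by
  have hA' : (derivative A).natDegree ≤ d - 1 := (natDegree_derivative_le A).trans (by omega)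
  have hB' : (derivative B).natDegree ≤ d - 1 := (natDegree_derivative_le B).trans (by omega)
  have h1 : (wr A B).natDegree ≤ 2 * d - 1 := by
    unfold wr
    refine (natDegree_sub_le _ _).trans (max_le ?_ ?_)
    · exact (natDegree_mul_le_of_le hA' hB).trans (by omega)
    · exact (natDegree_mul_le_of_le hA hB').trans (by omega)
  rw [natDegree_le_iff_coeff_eq_zero]
  intro N hN
  rcases Nat.lt_or_ge (2 * d - 1) N with h | h
  · exact coeff_eq_zero_of_natDegree_lt (lt_of_le_of_lt h1 h)
  · obtain ⟨e, rfl⟩ : ∃ e, d = e + 1 := ⟨d - 1, by omega⟩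
    have hN : N = e + (e + 1) := by omega
    subst hN
    unfold wr
    rw [coeff_sub, coeff_mul_add_eq_of_natDegree_le (by simpa using hA') hB]
    rw [show e + (e + 1) = (e + 1) + e by ring]
    rw [coeff_mul_add_eq_of_natDegree_le hA (by simpa using hB'), coeff_derivative, coeff_derivative]
    ring

omit [Infinite K] in
/-- derivative of a form along a curve -/
lemma hev_derivative (P : K[X]) (n : ℕ) (hn : 1 ≤ n) (hP : P.natDegree ≤ n) (u w : K[X]) :
    w * derivative (hev P n u w) = (w * derivative u - u * derivative w) *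
      hev (derivative P) (n - 1) u w + (n : K[X]) * derivative w * hev P n u w := by
  obtain ⟨m, rfl⟩ : ∃ m, n = m + 1 := ⟨n - 1, by omega⟩
  have e1 : hev (derivative P) (m + 1 - 1) u w =
      ∑ j ∈ range (m + 2), C (P.coeff j) * ((j : K[X]) * u ^ (j - 1) * w ^ (m + 1 - j)) := by
    rw [Finset.sum_range_succ']
    unfold hev
    simp only [add_tsub_cancel_right, Nat.cast_zero, zero_mul, mul_zero, add_zero]
    apply sum_congr rfl
    intro j _
    rw [coeff_derivative, map_mul, ← C_eq_algebraMap]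
    have : m + 1 - (j + 1) = m - j := by omega
    rw [this]
    simp only [Nat.cast_add, Nat.cast_one, map_add, map_natCast, map_one]
    ring
  rw [e1]
  unfold hev
  rw [derivative_sum, mul_sum, mul_sum, mul_sum, ← sum_add_distrib]
  apply sum_congr rfl
  intro j hj
  rw [mem_range] at hj
  rw [← C_eq_algebraMap]
  simp only [derivative_mul, derivative_C, derivative_pow, zero_mul, zero_add]
  rcases Nat.eq_zero_or_pos j with h0 | h0
  · subst h0
    simp only [Nat.cast_zero, map_zero, pow_zero, zero_mul, mul_zero, zero_add, tsub_zero, mul_one]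
    have : m + 1 - 1 = m := by omega
    rw [this]
    simp only [Nat.cast_add, Nat.cast_one, map_add, map_natCast, map_one]
    ring
  · obtain ⟨i, rfl⟩ : ∃ i, j = i + 1 := ⟨j - 1, by omega⟩
    rcases Nat.lt_or_ge i m with h1 | h1
    · obtain ⟨t, rfl⟩ : ∃ t, m = i + 1 + t := ⟨m - (i + 1), by omega⟩
      have a1 : i + 1 + t + 1 - (i + 1) = t + 1 := by omega
      have a2 : i + 1 - 1 = i := by omega
      have a3 : t + 1 - 1 = t := by omega
      rw [a1, a2, a3]
      simp only [Nat.cast_add, Nat.cast_one, map_add, map_natCast, map_one]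
      ring
    · have : i = m := by omega
      subst this
      simp only [tsub_self, pow_zero, add_tsub_cancel_right, Nat.cast_add, Nat.cast_one, map_add,
        map_natCast, map_one, Nat.cast_zero, map_zero]
      ring

/-- chain rule for the Wronskian -/
lemma wr_hev {A B : K[X]} {d : ℕ} (hd : 1 ≤ d) (hA : A.natDegree ≤ d) (hB : B.natDegree ≤ d)
    (u w : K[X]) (hw : w ≠ 0) :
    wr (hev A d u w) (hev B d u w) = (w * derivative u - u * derivative w) *
      hev (wr A B) (2 * d - 2) u w := by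
  have hA' : (derivative A).natDegree ≤ d - 1 := (natDegree_derivative_le A).trans (by omega)
  have hB' : (derivative B).natDegree ≤ d - 1 := (natDegree_derivative_le B).trans (by omega)
  have e1 : hev (wr A B) (2 * d - 2) u w * w =
      hev (derivative A) (d - 1) u w * hev B d u w - hev A d u w * hev (derivative B) (d - 1) u w := by
    have h1 := hev_pad 1 (wr_natDegree hd hA hB) u w
    rw [pow_one] at h1
    rw [← h1]
    have h2 : wr A B = derivative A * B + C (-1) * (A * derivative B) := by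
      unfold wr; simp; ring
    rw [h2, hev_add, hev_C_mul]
    have h3 : 2 * d - 2 + 1 = (d - 1) + d := by omega
    rw [h3, hev_mulP hA' hB]
    rw [add_comm (d - 1) d, hev_mulP hA hB']
    simp
    ring
  have hA1 := hev_derivative A d hd hA u w
  have hB1 := hev_derivative B d hd hB u w
  apply mul_left_cancel₀ hw
  unfold wr
  calc w * (derivative (hev A d u w) * hev B d u w - hev A d u w * derivative (hev B d u w))
      = (w * derivative (hev A d u w)) * hev B d u w - hev A d u w * (w * derivative (hev B d u w)) := by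
        ring
    _ = (w * derivative u - u * derivative w) * (hev (derivative A) (d - 1) u w * hev B d u w -
          hev A d u w * hev (derivative B) (d - 1) u w) := by rw [hA1, hB1]; ring
    _ = _ := by rw [← e1]; unfold wr; ring

omit [Infinite K] in
/-- `A - x B` is not zero -/
lemma sub_ne_zero_of_isRat {A B : K[X]} {d : ℕ} (hd : 1 ≤ d) (hAB : IsRat A B d) (x : K) :
    A - C x * B ≠ 0 := by
  intro h
  have hA : A = C x * B := sub_eq_zero.mp h
  have hu : IsUnit B := by
    have := hAB.cop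
    rw [hA] at this
    exact isCoprime_self.mp (this.of_mul_left_right)
  obtain ⟨b, hb, rfl⟩ := Polynomial.isUnit_iff.mp hu
  rcases hAB.top with h1 | h1
  · apply h1
    rw [hA, ← C_mul, coeff_C, if_neg (by omega)]
  · apply h1
    rw [coeff_C, if_neg (by omega)]

omit [Infinite K] in
lemma den_ne_zero {A B : K[X]} {d : ℕ} (hd : 1 ≤ d) (hAB : IsRat A B d) : B ≠ 0 := by
  intro h
  subst h
  have hu : IsUnit A := isCoprime_zero_right.mp hAB.cop
  obtain ⟨b, hb, rfl⟩ := Polynomial.isUnit_iff.mp hu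
  rcases hAB.top with h1 | h1
  · apply h1
    rw [coeff_C, if_neg (by omega)]
  · simp at h1

omit [Infinite K] in
lemma fix_ne_zero {A B : K[X]} {d : ℕ} (hd : 2 ≤ d) (hAB : IsRat A B d) : X * B - A ≠ 0 := by
  intro h
  have hA : A = X * B := (sub_eq_zero.mp h).symm
  have hu : IsUnit B := by
    have := hAB.cop
    rw [hA] at this
    exact isCoprime_self.mp (this.of_mul_left_right)
  obtain ⟨b, hb, rfl⟩ := Polynomial.isUnit_iff.mp hu
  rcases hAB.top with h1 | h1
  · apply h1
    rw [hA, X_mul_C, coeff_C_mul, coeff_X, if_neg (by omega), mul_zero]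
  · apply h1
    rw [coeff_C, if_neg (by omega)]

/-- **Normalisation**: a generic point is moved to infinity. -/
theorem normalise {d l n : ℕ} (hd : 2 ≤ d) {A B : K[X]} (hAB : IsRat A B d) {U V : K[X]}
    (hU : U.natDegree ≤ n) (hV : V.natDegree ≤ n) (hV0 : V ≠ 0) (hU0 : U ≠ 0)
    (h : (hev U n A B : K[X]) * V * B ^ (2 * l) = wr A B ^ l * U * hev V n A B) :
    ∃ A' B' U' V' : K[X], IsRat A' B' d ∧ B'.coeff d ≠ 0 ∧ U'.natDegree = n + 2 * l ∧
      U'.coeff (n + 2 * l) ≠ 0 ∧ V'.natDegree = n ∧ V'.coeff n ≠ 0 ∧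
      U'.eval (A'.coeff d / B'.coeff d) ≠ 0 ∧
      (hev U' (n + 2 * l) A' B' : K[X]) * V' = wr A' B' ^ l * U' * hev V' n A' B' := by
  classical
  -- the generic point
  obtain ⟨c, hc⟩ : ∃ c : K, (U * V * (X * B - A) * B *
      ∏ r ∈ U.roots.toFinset, (A - C r * B)).eval c ≠ 0 := by
    by_contra hcon
    push Not at hcon
    have h0 : U * V * (X * B - A) * B * ∏ r ∈ U.roots.toFinset, (A - C r * B) = 0 := by
      apply Polynomial.funext
      intro y
      rw [hcon y, eval_zero]
    have h1 : ∏ r ∈ U.roots.toFinset, (A - C r * B) ≠ 0 :=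
      Finset.prod_ne_zero_iff.mpr fun r _ => sub_ne_zero_of_isRat (by omega) hAB r
    exact mul_ne_zero (mul_ne_zero (mul_ne_zero (mul_ne_zero hU0 hV0) (fix_ne_zero hd hAB))
      (den_ne_zero (by omega) hAB)) h1 h0
  rw [eval_mul, eval_mul, eval_mul, eval_mul, eval_prod] at hc
  have hc5 := right_ne_zero_of_mul hc
  have hc4 := right_ne_zero_of_mul (left_ne_zero_of_mul hc)
  have hc3 := right_ne_zero_of_mul (left_ne_zero_of_mul (left_ne_zero_of_mul hc))
  have hc2 := right_ne_zero_of_mul (left_ne_zero_of_mul (left_ne_zero_of_mul (left_ne_zero_of_mul hc)))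
  have hc1 := left_ne_zero_of_mul (left_ne_zero_of_mul (left_ne_zero_of_mul (left_ne_zero_of_mul hc)))
  clear hc
  have hc6 : U.eval (A.eval c / B.eval c) ≠ 0 := by
    intro h0
    have hmem : A.eval c / B.eval c ∈ U.roots.toFinset := by
      rw [Multiset.mem_toFinset, mem_roots hU0]; exact h0
    rw [Finset.prod_ne_zero_iff] at hc5
    apply hc5 _ hmem
    rw [eval_sub, eval_mul, eval_C]
    field_simp
    ring
  -- the transformation
  obtain ⟨u, hu⟩ : ∃ u : K[X], u = C c * X + 1 := ⟨_, rfl⟩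
  obtain ⟨w, hw⟩ : ∃ w : K[X], w = X := ⟨_, rfl⟩
  have hu1 : u.natDegree ≤ 1 := by
    rw [hu]; exact natDegree_linear_le
  have hw1 : w.natDegree ≤ 1 := by rw [hw]; exact natDegree_X_le
  have hw0 : w ≠ 0 := by rw [hw]; exact X_ne_zero
  have huw : IsCoprime u w := ⟨1, - C c, by rw [hu, hw]; ring⟩
  set A₁ := hev A d u w with hA₁
  set B₁ := hev B d u w with hB₁
  have hA₁d : A₁.natDegree ≤ d := by simpa using hev_natDegree A d hu1 hw1
  have hB₁d : B₁.natDegree ≤ d := by simpa using hev_natDegree B d hu1 hw1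
  have hucoef : u.coeff 1 = c := by rw [hu]; simp [coeff_one]
  have hwcoef : w.coeff 1 = 1 := by rw [hw]; simp
  have hcoef : ∀ (P : K[X]) (m : ℕ), P.natDegree ≤ m → (hev P m u w).coeff m = P.eval c := by
    intro P m hP
    have h1 := hev_coeff P m hu1 hw1
    rw [mul_one, hucoef, hwcoef, hev_eq_eval P m hP c 1 one_ne_zero] at h1
    simpa using h1
  have hcop₁ : IsCoprime A₁ B₁ := hev_isCoprime hAB.cop hAB.dA hAB.dB hAB.top huw
  set B₂ := A₁ - C c * B₁ with hB₂
  have hB₂d : B₂.natDegree ≤ d := by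
    refine (natDegree_sub_le _ _).trans (max_le hA₁d ?_)
    exact (natDegree_C_mul_le _ _).trans hB₁d
  have hB₂c : B₂.coeff d = A.eval c - c * B.eval c := by
    rw [hB₂, coeff_sub, coeff_C_mul, hcoef A d hAB.dA, hcoef B d hAB.dB]
  have hB₂c0 : B₂.coeff d ≠ 0 := by
    rw [hB₂c]
    intro h0
    apply hc3
    rw [eval_sub, eval_mul, eval_X]
    linear_combination -h0
  have hcop₂ : IsCoprime B₁ B₂ := by
    rw [hB₂]
    have : IsCoprime B₁ (A₁ + (- C c) * B₁) := (IsCoprime.add_mul_right_right hcop₁.symm _)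
    convert this using 1
    ring
  have hW : wr B₁ B₂ = hev (wr A B) (2 * d - 2) u w := by
    have h1 := wr_hev (by omega) hAB.dA hAB.dB u w hw0
    have h2 : w * derivative u - u * derivative w = -1 := by
      rw [hu, hw]; simp
    rw [h2] at h1
    have h3 : wr B₁ B₂ = - wr A₁ B₁ := by
      rw [hB₂]; unfold wr; simp; ring
    rw [h3, h1]; ring
  have hk1 : hev u 1 B₁ B₂ = A₁ := by
    have e : hev u 1 B₁ B₂ = C c * B₁ + B₂ := by
      unfold hev
      rw [Finset.sum_range_succ, Finset.sum_range_succ, Finset.sum_range_zero, hucoef]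
      have : u.coeff 0 = 1 := by rw [hu]; simp
      rw [this]
      simp
      ring
    rw [e, hB₂]; ring
  have hk2 : hev w 1 B₁ B₂ = B₁ := by
    unfold hev
    rw [Finset.sum_range_succ, Finset.sum_range_succ, Finset.sum_range_zero, hwcoef, hw]
    simp
  have htr : ∀ (P : K[X]) (m : ℕ), P.natDegree ≤ m →
      hev (hev P m u w) m B₁ B₂ = hev (hev P m A B) (m * d) u w := by
    intro P m hP
    have h1 := hev_compP P m hu1 hw1 B₁ B₂
    rw [mul_one, hk1, hk2] at h1
    rw [h1, hev_compP P m hAB.dA hAB.dB]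
  have hUn : U.natDegree ≤ n + 2 * l := by omega
  set U₂ := hev U (n + 2 * l) u w with hU₂
  set V₂ := hev V n u w with hV₂
  have hU₂d : U₂.natDegree ≤ n + 2 * l := by simpa using hev_natDegree U (n + 2 * l) hu1 hw1
  have hV₂d : V₂.natDegree ≤ n := by simpa using hev_natDegree V n hu1 hw1
  have hU₂c : U₂.coeff (n + 2 * l) = U.eval c := hcoef U _ hUn
  have hV₂c : V₂.coeff n = V.eval c := hcoef V _ hV
  refine ⟨B₁, B₂, U₂, V₂, ⟨hcop₂, hB₁d, hB₂d, Or.inr hB₂c0⟩, hB₂c0, ?_, ?_, ?_, ?_, ?_, ?_⟩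
  · exact le_antisymm hU₂d (le_natDegree_of_ne_zero (by rw [hU₂c]; exact hc1))
  · rw [hU₂c]; exact hc1
  · exact le_antisymm hV₂d (le_natDegree_of_ne_zero (by rw [hV₂c]; exact hc2))
  · rw [hV₂c]; exact hc2
  · -- the value at infinity
    have h1 : (hev U₂ (n + 2 * l) B₁ B₂).coeff ((n + 2 * l) * d) = (hev U (n + 2 * l) A B).eval c := by
      rw [hU₂, htr U _ hUn]
      apply hcoef
      exact hev_natDegree U _ hAB.dA hAB.dB
    rw [hev_coeff U₂ (n + 2 * l) hB₁d hB₂d, hev_eq_eval U₂ _ hU₂d _ _ hB₂c0, hev_eval U _ A B,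
      hev_eq_eval U _ hUn _ _ hc4] at h1
    intro h0
    rw [h0, mul_zero] at h1
    exact mul_ne_zero (pow_ne_zero _ hc4) hc6 h1.symm
  · have h' : hev U (n + 2 * l) A B * V = wr A B ^ l * U * hev V n A B := by
      rw [← h, hev_pad (2 * l) hU]; ring
    have hWd := wr_natDegree (by omega : 1 ≤ d) hAB.dA hAB.dB
    rw [hU₂, hV₂, htr U _ hUn, htr V _ hV, hW,
      ← hev_mulP (hev_natDegree U (n + 2 * l) hAB.dA hAB.dB) hV, h', ← hev_powP l hWd,
      ← hev_mulP (natDegree_pow_le_of_le l hWd) hUn,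
      ← hev_mulP (natDegree_mul_le_of_le (natDegree_pow_le_of_le l hWd) hUn)
        (hev_natDegree V n hAB.dA hAB.dB)]
    congr 1
    obtain ⟨e, rfl⟩ : ∃ e, d = e + 2 := ⟨d - 2, by omega⟩
    have : 2 * (e + 2) - 2 = 2 * e + 2 := by omega
    rw [this]
    ring

end basic

end Pool.Agent.Helper79.PS
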