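import Pool.Agent.Helper79.PS.LemmaR1

/-!
# Lemma R, part 2: local relations
-/

set_option autoImplicit false

open Finset Polynomial

namespace Pool.Agent.Helper79.PS

open Pool.Agent.Helper33.PS Pool.Agent.Helper93.RatODE

section localrel

variable {K : Type*} [Field K]

lemma exists_factor {P : K[X]} (hP : P ≠ 0) (q : K) :
    ∃ Q : K[X], P = (X - C q) ^ (P.rootMultiplicity q) * Q ∧ Q.eval q ≠ 0 := by
  obtain ⟨Q, h1, h2⟩ := exists_eq_pow_rootMultiplicity_mul_and_not_dvd P hP q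
  exact ⟨Q, h1, fun h => h2 (dvd_iff_isRoot.mpr h)⟩

lemma pow_cancel_aux {q : K} {i j : ℕ} {F G : K[X]} (hF : F.eval q ≠ 0)
    (h : (X - C q) ^ i * F = (X - C q) ^ j * G) : j ≤ i := by
  by_contra hcon
  push Not at hcon
  obtain ⟨t, rfl⟩ : ∃ t, j = i + (t + 1) := ⟨j - i - 1, by omega⟩
  rw [pow_add, mul_assoc] at h
  have h1 := mul_left_cancel₀ (pow_ne_zero _ (X_sub_C_ne_zero q)) h
  apply hF
  rw [h1]
  simp

lemma pow_cancel {q : K} {i j : ℕ} {F G : K[X]} (hF : F.eval q ≠ 0) (hG : G.eval q ≠ 0)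
    (h : (X - C q) ^ i * F = (X - C q) ^ j * G) : i = j ∧ F = G := by
  have h1 := pow_cancel_aux hF h
  have h2 := pow_cancel_aux hG h.symm
  have h3 : i = j := le_antisymm h2 h1
  subst h3
  exact ⟨rfl, mul_left_cancel₀ (pow_ne_zero _ (X_sub_C_ne_zero q)) h⟩

lemma wr_sub (A B : K[X]) (p : K) : wr (A - C p * B) B = wr A B := by
  unfold wr; simp; ring

lemma wr_factor {A B g : K[X]} {p q : K} {e : ℕ} (hg : A - C p * B = (X - C q) ^ (e + 1) * g) :
    wr A B = (X - C q) ^ e * ((((e : K[X]) + 1) * g + (X - C q) * derivative g) * B -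
      (X - C q) * g * derivative B) := by
  rw [← wr_sub A B p, hg]
  unfold wr
  simp only [derivative_mul, derivative_pow, derivative_sub, derivative_X, derivative_C, sub_zero,
    mul_one, add_tsub_cancel_right, Nat.cast_add, Nat.cast_one]
  simp
  ring

variable [Infinite K]

/-- the pullback of a form with prescribed order at `p` -/
lemma hev_factor {A B U Uh : K[X]} {N m : ℕ} {p : K} (hU : U = (X - C p) ^ m * Uh) (hU0 : U ≠ 0)
    (hUN : U.natDegree ≤ N) :
    m ≤ N ∧ Uh.natDegree ≤ N - m ∧ (hev U N A B : K[X]) = (A - C p * B) ^ m * hev Uh (N - m) A B := by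
  have hUh : Uh ≠ 0 := by rintro rfl; exact hU0 (by rw [hU, mul_zero])
  have h1 : U.natDegree = m + Uh.natDegree := by
    rw [hU, natDegree_mul (pow_ne_zero _ (X_sub_C_ne_zero p)) hUh, natDegree_pow, natDegree_X_sub_C,
      mul_one]
  have h2 : m ≤ N := by omega
  refine ⟨h2, by omega, ?_⟩
  have h3 : N = m * 1 + (N - m) := by omega
  conv_lhs => rw [h3, hU]
  rw [hev_mulP (natDegree_pow_le_of_le m (natDegree_X_sub_C_le p)) (by omega : Uh.natDegree ≤ N - m),
    hev_powP m (natDegree_X_sub_C_le p), hev_linear]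

/-- **the local relation** -/
theorem local_rel {d l n : ℕ} {A B U V : K[X]} (hU0 : U ≠ 0) (hV0 : V ≠ 0)
    (hU : U.natDegree ≤ n + 2 * l) (hV : V.natDegree ≤ n) (hd : 1 ≤ d)
    (h : (hev U (n + 2 * l) A B : K[X]) * V = wr A B ^ l * U * hev V n A B)
    [CharZero K]
    {p q : K} (hBq : B.eval q ≠ 0) (hAq : A.eval q = p * B.eval q)
    {e : ℕ} {g : K[X]} (hg : A - C p * B = (X - C q) ^ (e + 1) * g) (hgq : g.eval q ≠ 0)
    {m m' : ℕ} {Uh Vh : K[X]} (hUh : U = (X - C p) ^ m * Uh) (hVh : V = (X - C p) ^ m' * Vh)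
    (hUp : Uh.eval p ≠ 0) (hVp : Vh.eval p ≠ 0)
    {a a' : ℕ} {U₁ V₁ : K[X]} (hU₁ : U = (X - C q) ^ a * U₁) (hV₁ : V = (X - C q) ^ a' * V₁)
    (hUq : U₁.eval q ≠ 0) (hVq : V₁.eval q ≠ 0) :
    m ≤ n + 2 * l ∧ m' ≤ n ∧ (e + 1) * m + a' = e * l + a + (e + 1) * m' ∧
    g.eval q ^ m * B.eval q ^ (n + 2 * l - m) * Uh.eval p * V₁.eval q =
      (((e : K) + 1) * g.eval q * B.eval q) ^ l * U₁.eval q *
        (g.eval q ^ m' * B.eval q ^ (n - m') * Vh.eval p) := by
  obtain ⟨hm, hUhd, hU2⟩ := hev_factor (A := A) (B := B) hUh hU0 hU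
  obtain ⟨hm', hVhd, hV2⟩ := hev_factor (A := A) (B := B) hVh hV0 hV
  have hW := wr_factor hg
  set W₁ := (((e : K[X]) + 1) * g + (X - C q) * derivative g) * B - (X - C q) * g * derivative B
    with hW₁
  have hW₁q : W₁.eval q = ((e : K) + 1) * g.eval q * B.eval q := by
    rw [hW₁]; simp
  have e0 : ((e : K) + 1) ≠ 0 := by exact_mod_cast Nat.succ_ne_zero e
  have hE : (X - C q) ^ ((e + 1) * m + a') * (g ^ m * hev Uh (n + 2 * l - m) A B * V₁) =
      (X - C q) ^ (e * l + a + (e + 1) * m') * (W₁ ^ l * U₁ * (g ^ m' * hev Vh (n - m') A B)) := by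
    calc (X - C q) ^ ((e + 1) * m + a') * (g ^ m * hev Uh (n + 2 * l - m) A B * V₁)
        = (((X - C q) ^ (e + 1) * g) ^ m * hev Uh (n + 2 * l - m) A B) * ((X - C q) ^ a' * V₁) := by
          rw [mul_pow, pow_add, pow_mul]; ring
      _ = hev U (n + 2 * l) A B * V := by rw [hU2, hg, ← hV₁]
      _ = wr A B ^ l * U * hev V n A B := h
      _ = ((X - C q) ^ e * W₁) ^ l * ((X - C q) ^ a * U₁) *
            (((X - C q) ^ (e + 1) * g) ^ m' * hev Vh (n - m') A B) := by
          rw [hV2, hg, ← hU₁, hW]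
      _ = _ := by
          clear_value W₁
          generalize (X - C q : K[X]) = Y
          ring
  have ev : ∀ (P : K[X]) (j : ℕ), P.natDegree ≤ j → (hev P j A B : K[X]).eval q =
      B.eval q ^ j * P.eval p := by
    intro P j hP
    rw [hev_eval, hev_eq_eval P j hP _ _ hBq, hAq, mul_div_cancel_right₀ _ hBq]
  have hF : (g ^ m * hev Uh (n + 2 * l - m) A B * V₁).eval q =
      g.eval q ^ m * B.eval q ^ (n + 2 * l - m) * Uh.eval p * V₁.eval q := by
    rw [eval_mul, eval_mul, eval_pow, ev _ _ hUhd]; ring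
  have hG : (W₁ ^ l * U₁ * (g ^ m' * hev Vh (n - m') A B)).eval q =
      (((e : K) + 1) * g.eval q * B.eval q) ^ l * U₁.eval q *
        (g.eval q ^ m' * B.eval q ^ (n - m') * Vh.eval p) := by
    rw [eval_mul, eval_mul, eval_pow, eval_mul, eval_pow, ev _ _ hVhd, hW₁q]; ring
  have hF0 : (g ^ m * hev Uh (n + 2 * l - m) A B * V₁).eval q ≠ 0 := by
    rw [hF]
    exact mul_ne_zero (mul_ne_zero (mul_ne_zero (pow_ne_zero _ hgq) (pow_ne_zero _ hBq)) hUp) hVq
  have hG0 : (W₁ ^ l * U₁ * (g ^ m' * hev Vh (n - m') A B)).eval q ≠ 0 := by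
    rw [hG]
    exact mul_ne_zero (mul_ne_zero (pow_ne_zero _ (mul_ne_zero (mul_ne_zero e0 hgq) hBq)) hUq)
      (mul_ne_zero (mul_ne_zero (pow_ne_zero _ hgq) (pow_ne_zero _ hBq)) hVp)
  obtain ⟨h1, h2⟩ := pow_cancel hF0 hG0 hE
  refine ⟨hm, hm', h1, ?_⟩
  rw [← hF, ← hG, h2]

end localrel

section main

variable {K : Type*} [Field K] [Infinite K] [CharZero K]

/-- **multiplier one is impossible** -/
theorem mult_one_impossible {d l n : ℕ} {A B U V : K[X]} (hU0 : U ≠ 0) (hV0 : V ≠ 0)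
    (hU : U.natDegree ≤ n + 2 * l) (hV : V.natDegree ≤ n) (hd : 1 ≤ d)
    (h : (hev U (n + 2 * l) A B : K[X]) * V = wr A B ^ l * U * hev V n A B)
    (hfix : X * B - A ≠ 0) {p : K} (hBp : B.eval p ≠ 0) {g : K[X]}
    (hg : A - C p * B = (X - C p) * g) (hgp : g.eval p = B.eval p)
    {m m' : ℕ} {Uh Vh : K[X]} (hUh : U = (X - C p) ^ m * Uh) (hVh : V = (X - C p) ^ m' * Vh)
    (hUp : Uh.eval p ≠ 0) (hVp : Vh.eval p ≠ 0) (hmm : m < m' + l) : False := by
  -- the displacement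
  have hBg : X * B - A = (X - C p) * (B - g) := by
    have : A = (X - C p) * g + C p * B := by rw [← hg]; ring
    rw [this]; ring
  have hBg0 : B - g ≠ 0 := by
    intro h0
    apply hfix
    rw [hBg, h0, mul_zero]
  obtain ⟨φ, hφ, hφp⟩ := exists_factor hBg0 p
  have hs : 1 ≤ (B - g).rootMultiplicity p := by
    rw [Nat.one_le_iff_ne_zero]
    intro h0
    rw [h0, pow_zero, one_mul] at hφ
    apply hφp
    rw [← hφ, eval_sub, hgp, sub_self]
  set s := (B - g).rootMultiplicity p with hs'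
  clear_value s
  obtain ⟨hm, hUhd, hU2⟩ := hev_factor (A := A) (B := B) hUh hU0 hU
  obtain ⟨hm', hVhd, hV2⟩ := hev_factor (A := A) (B := B) hVh hV0 hV
  -- cancelled equation
  have hE : g ^ m * hev Uh (n + 2 * l - m) A B * Vh =
      wr A B ^ l * Uh * (g ^ m' * hev Vh (n - m') A B) := by
    apply mul_left_cancel₀ (pow_ne_zero (m + m') (X_sub_C_ne_zero p))
    calc (X - C p) ^ (m + m') * (g ^ m * hev Uh (n + 2 * l - m) A B * Vh)
        = (((X - C p) * g) ^ m * hev Uh (n + 2 * l - m) A B) * ((X - C p) ^ m' * Vh) := by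
          generalize (X - C p : K[X]) = Y
          ring
      _ = hev U (n + 2 * l) A B * V := by rw [hU2, hg, ← hVh]
      _ = wr A B ^ l * U * hev V n A B := h
      _ = wr A B ^ l * ((X - C p) ^ m * Uh) * (((X - C p) * g) ^ m' * hev Vh (n - m') A B) := by
          rw [hV2, hg, ← hUh]
      _ = _ := by
          generalize (X - C p : K[X]) = Y
          ring
  -- the quotient ring
  set I : Ideal K[X] := Ideal.span {(X - C p) ^ (s + 1)} with hI
  let π : K[X] →ₐ[K] (K[X] ⧸ I) := Ideal.Quotient.mkₐ K I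
  have hπ : ∀ P : K[X], π P = 0 ↔ (X - C p) ^ (s + 1) ∣ P := by
    intro P
    change Ideal.Quotient.mk I P = 0 ↔ _
    rw [Ideal.Quotient.eq_zero_iff_mem, hI, Ideal.mem_span_singleton]
  have hunit : ∀ P : K[X], P.eval p ≠ 0 → IsUnit (π P) := by
    intro P hP
    have hc : IsCoprime P ((X - C p) ^ (s + 1)) := by
      apply IsCoprime.pow_right
      apply IsCoprime.symm
      rw [(prime_X_sub_C p).irreducible.coprime_iff_not_dvd]
      intro hdvd
      exact hP (dvd_iff_isRoot.mp hdvd)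
    obtain ⟨a, b, hab⟩ := hc
    have h1 := congrArg π hab
    rw [map_add, map_mul, map_mul, map_one, (hπ _).mpr dvd_rfl, mul_zero, add_zero] at h1
    exact IsUnit.of_mul_eq_one (π a) (by rw [mul_comm]; exact h1)
  obtain ⟨b, hb⟩ := hunit B hBp
  have hb1 : π B * (↑b⁻¹ : K[X] ⧸ I) = 1 := by rw [← hb]; simp
  -- the small quantity
  set σ : K[X] ⧸ I := π (B - g) * (↑b⁻¹ : K[X] ⧸ I) with hσ
  have hσ2 : σ * σ = 0 := by
    have : π ((B - g) * (B - g)) = 0 := by
      rw [hπ, hφ, mul_mul_mul_comm, ← pow_add]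
      exact Dvd.dvd.mul_right (pow_dvd_pow _ (by omega)) _
    rw [hσ, mul_mul_mul_comm, ← map_mul, this, zero_mul]
  have hgσ : π g = π B * (1 - σ) := by
    have : π g = π B - π (B - g) := by rw [map_sub]; ring
    rw [this, hσ, mul_sub, mul_one]
    congr 1
    calc π (B - g) = π (B - g) * (π B * (↑b⁻¹ : K[X] ⧸ I)) := by rw [hb1, mul_one]
      _ = _ := by ring
  have hpow : ∀ j : ℕ, (1 - σ) ^ j = 1 - (j : K[X] ⧸ I) * σ := by
    intro j
    induction j with
    | zero => simp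
    | succ j ih =>
      rw [pow_succ, ih]
      push_cast
      linear_combination (j : K[X] ⧸ I) * hσ2
  have hpow2 : ∀ c : K[X] ⧸ I, ∀ j : ℕ, (1 - c * σ) ^ j = 1 - (j : K[X] ⧸ I) * c * σ := by
    intro c j
    induction j with
    | zero => simp
    | succ j ih =>
      rw [pow_succ, ih]
      push_cast
      linear_combination (j : K[X] ⧸ I) * c ^ 2 * hσ2
  have hA : π A = π (B * X) := by
    rw [← sub_eq_zero, ← map_sub, hπ]
    have : A - B * X = (X - C p) ^ (s + 1) * (-φ) := by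
      have h1 : A - B * X = -((X - C p) * (B - g)) := by rw [← hBg]; ring
      rw [h1, hφ]; ring
    rw [this]
    exact dvd_mul_right _ _
  have hhev : ∀ (P : K[X]) (j : ℕ), P.natDegree ≤ j → π (hev P j A B) = π B ^ j * π P := by
    intro P j hP
    rw [hev_map, hA, ← hev_map, hev_self P j hP, map_mul, map_pow]
  have hwr : π (wr A B) = π B ^ 2 * (1 - ((s : K[X] ⧸ I) + 1) * σ) := by
    have h1 : wr A B = B ^ 2 - ((s : K[X]) + 1) * (B - g) * B + (X - C p) ^ (s + 1) *
        (φ * derivative B - derivative φ * B) := by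
      have hA1 : A = X * B - (X - C p) ^ (s + 1) * φ := by
        have : X * B - A = (X - C p) ^ (s + 1) * φ := by rw [hBg, hφ]; ring
        rw [← this]; ring
      have h2 : wr A B = wr (X * B - (X - C p) ^ (s + 1) * φ) B := by rw [← hA1]
      rw [h2, hφ]
      unfold wr
      simp only [derivative_mul, derivative_pow, derivative_sub, derivative_X, derivative_C, sub_zero,
        mul_one, add_tsub_cancel_right, Nat.cast_add, Nat.cast_one]
      simp
      ring
    rw [h1, map_add, map_sub, (hπ _).mpr (dvd_mul_right _ _), add_zero, map_mul, map_mul, map_pow,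
      map_add, map_natCast, map_one]
    have h3 : π (B - g) = π B * σ := by
      rw [hσ]
      calc π (B - g) = π (B - g) * (π B * (↑b⁻¹ : K[X] ⧸ I)) := by rw [hb1, mul_one]
        _ = _ := by ring
    rw [h3]; ring
  have hE2 := congrArg π hE
  rw [map_mul, map_mul, map_mul, map_mul, map_mul, map_pow, map_pow, map_pow, hhev _ _ hUhd,
    hhev _ _ hVhd, hgσ, hwr] at hE2
  simp only [mul_pow] at hE2
  rw [hpow, hpow, hpow2] at hE2
  have hN : π B ^ m * π B ^ (n + 2 * l - m) = π B ^ (n + 2 * l) := by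
    rw [← pow_add]; congr 1; omega
  have hN' : π B ^ m' * π B ^ (n - m') = π B ^ n := by
    rw [← pow_add]; congr 1; omega
  obtain ⟨uh, huh⟩ := hunit Uh hUp
  obtain ⟨vh, hvh⟩ := hunit Vh hVp
  have hE3 : (π B ^ (n + 2 * l) * π Uh * π Vh) * (1 - (m : K[X] ⧸ I) * σ) =
      (π B ^ (n + 2 * l) * π Uh * π Vh) *
        ((1 - (l : K[X] ⧸ I) * ((s : K[X] ⧸ I) + 1) * σ) * (1 - (m' : K[X] ⧸ I) * σ)) := by
    calc (π B ^ (n + 2 * l) * π Uh * π Vh) * (1 - (m : K[X] ⧸ I) * σ)
        = (π B ^ m * π B ^ (n + 2 * l - m)) * π Uh * π Vh * (1 - (m : K[X] ⧸ I) * σ) := by rw [hN]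
      _ = π B ^ m * (1 - (m : K[X] ⧸ I) * σ) * (π B ^ (n + 2 * l - m) * π Uh) * π Vh := by ring
      _ = _ := hE2
      _ = π B ^ (2 * l) * (π B ^ m' * π B ^ (n - m')) * π Uh * π Vh *
            ((1 - (l : K[X] ⧸ I) * ((s : K[X] ⧸ I) + 1) * σ) * (1 - (m' : K[X] ⧸ I) * σ)) := by ring
      _ = _ := by rw [hN', pow_add]; ring
  have hunit3 : IsUnit (π B ^ (n + 2 * l) * π Uh * π Vh) := by
    rw [← hb, ← huh, ← hvh]
    exact ((b ^ (n + 2 * l)).isUnit.mul uh.isUnit).mul vh.isUnit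
  have hE4 := hunit3.mul_left_cancel hE3
  have hE5 : ((l : K[X] ⧸ I) * ((s : K[X] ⧸ I) + 1) + (m' : K[X] ⧸ I) - (m : K[X] ⧸ I)) * σ = 0 := by
    linear_combination hE4 + (l : K[X] ⧸ I) * ((s : K[X] ⧸ I) + 1) * (m' : K[X] ⧸ I) * hσ2
  have hE6 : π (((l : K[X]) * ((s : K[X]) + 1) + (m' : K[X]) - (m : K[X])) * (B - g)) = 0 := by
    rw [map_mul]
    have h3 : π (B - g) = π B * σ := by
      rw [hσ]
      calc π (B - g) = π (B - g) * (π B * (↑b⁻¹ : K[X] ⧸ I)) := by rw [hb1, mul_one]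
        _ = _ := by ring
    rw [h3]
    simp only [map_sub, map_add, map_mul, map_natCast, map_one]
    linear_combination π B * hE5
  rw [hπ, hφ] at hE6
  have hE7 : (X - C p) ^ s * (X - C p) ∣ (X - C p) ^ s *
      (((l : K[X]) * ((s : K[X]) + 1) + (m' : K[X]) - (m : K[X])) * φ) := by
    rw [pow_succ] at hE6
    convert hE6 using 1
    ring
  have hE8 := (mul_dvd_mul_iff_left (pow_ne_zero s (X_sub_C_ne_zero p))).mp hE7
  rw [dvd_iff_isRoot, IsRoot.def, eval_mul] at hE8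
  have hE9 : eval p ((l : K[X]) * ((s : K[X]) + 1) + (m' : K[X]) - (m : K[X])) =
      (l : K) * ((s : K) + 1) + m' - m := by simp
  rw [hE9] at hE8
  rcases mul_eq_zero.mp hE8 with h1 | h1
  · have h2 : l * (s + 1) + m' = m := by
      have : ((l * (s + 1) + m' : ℕ) : K) = (m : K) := by
        push_cast
        linear_combination h1
      exact_mod_cast this
    have h3 : l * 1 ≤ l * (s + 1) := Nat.mul_le_mul_left l (by omega)
    omega
  · exact hφp h1

end main

end Pool.Agent.Helper79.PS
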